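import Pool.Agent.R467.IR.Core
import Pool.Agent.R467.IR.Name
import Pool.Agent.R467.IR.Code
import Pool.Agent.R467.IR.EU
import Pool.Agent.R467.IR.ORD
import Pool.Agent.R467.IR.ENC
import Pool.Agent.R467.IR.FREE
import Pool.Agent.R467.IR.VIT
import Pool.Agent.R467.IR.PACK
import Pool.Agent.R467.IR.SEARCH
import Pool.Agent.R467.IR.NW

/-!
MP_e50eb5_co: the bipartite graphs without a one-sided induced `2P_3` admit an implicit
representation (adjacency labels of length `O(log n)`).
Pieces: helper467 (PIV, BIN, CORE, NAME, CODE), helper198 (VIT, PACK, SEARCH, NW),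
helper366 (EU, EV, ORD, ENC, FREE).
-/

namespace Pool.Agent.Results.MP_e50eb5_co.ImplicitRepresentation

open R467.IR

/-- There are a constant `c` and a decoding function `f` such that every finite graph `G` with a
colouring of its vertices in black and white, all of whose edges join a black and a white vertex,
and with no induced copy of `2P_3` whose two centres are black, has binary labels of length at most
`c * log₂ n` for which distinct vertices are adjacent exactly when `f` says so. -/
theorem result :
    ∃ (c : ℝ) (f : List Bool → List Bool → Bool),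
      ∀ (V : Type) [Fintype V] (G : SimpleGraph V) (black : V → Prop),
        (∀ x y, G.Adj x y → (black x ↔ ¬ black y)) →
        (¬ ∃ φ : twoP3 ↪g G, black (φ 1) ∧ black (φ 4)) →
        ∃ label : V → List Bool,
          (∀ v, ((label v).length : ℝ) ≤ c * Real.logb 2 (Fintype.card V)) ∧
          ∀ x y, x ≠ y → (G.Adj x y ↔ f (label x) (label y) = true) :=
  t_FINAL
    (t_CORE t_FREE t_ORD
      (t_BIN (t_SEARCH t_PIV) (t_NAME t_PIV (t_NW t_VIT) t_PACK t_CODE) (t_EU t_PIV) (t_EV t_PIV)))
    t_ENC

end Pool.Agent.Results.MP_e50eb5_co.ImplicitRepresentation
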